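import Pool.Agent.Helper39.SQ.Goals
import Pool.Agent.Helper39.Net.Parts

set_option autoImplicit false

/-!
# SQ-UPP
-/

namespace Pool.Agent.Helper39.SQ

open Pool.Agent.Helper39.Net

/-- The number of scales. -/
noncomputable def qq (c : ℝ) : ℕ := max 3 ⌈Real.logb 2 (5 * (1 / (c - 1)))⌉₊

theorem three_le_qq (c : ℝ) : 3 ≤ qq c := le_max_left _ _

theorem five_le (c : ℝ) (hc : 1 < c) : 5 / (2 : ℝ) ^ qq c ≤ c - 1 := by
  have hc0 : 0 < c - 1 := by linarith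
  have hpos : 0 < 5 * (1 / (c - 1)) := by positivity
  have h1 : Real.logb 2 (5 * (1 / (c - 1))) ≤ ⌈Real.logb 2 (5 * (1 / (c - 1)))⌉₊ := Nat.le_ceil _
  rw [Real.logb_le_iff_le_rpow (by norm_num) hpos, Real.rpow_natCast] at h1
  have h2 : (2 : ℝ) ^ ⌈Real.logb 2 (5 * (1 / (c - 1)))⌉₊ ≤ 2 ^ qq c :=
    pow_le_pow_right₀ (by norm_num) (le_max_right _ _)
  have h3 : 5 * (1 / (c - 1)) ≤ (2 : ℝ) ^ qq c := h1.trans h2
  rw [mul_one_div, div_le_iff₀ hc0] at h3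
  rw [div_le_iff₀ (by positivity)]
  linarith

theorem qq_le (c : ℝ) (hc : 1 < c) : (qq c : ℝ) ≤ 12 * G c := by
  set t := 1 / (c - 1) with ht
  have hc0 : 0 < c - 1 := by linarith
  have ht0 : 0 < t := by positivity
  have hlog : 0 ≤ Real.log (1 + t) := Real.log_nonneg (by linarith)
  have h1 : qq c ≤ 3 + ⌈Real.logb 2 (5 * t)⌉₊ := by
    unfold qq
    rw [← ht]
    exact max_le (by omega) (by omega)
  have h2 : ⌈Real.logb 2 (5 * t)⌉₊ ≤ ⌈Real.logb 2 (8 * (1 + t))⌉₊ :=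
    Nat.ceil_mono (Real.logb_le_logb_of_le (by norm_num) (by positivity) (by linarith))
  have h0 : 0 ≤ Real.logb 2 (8 * (1 + t)) := Real.logb_nonneg (by norm_num) (by linarith)
  have h3 : (⌈Real.logb 2 (8 * (1 + t))⌉₊ : ℝ) < Real.logb 2 (8 * (1 + t)) + 1 :=
    Nat.ceil_lt_add_one h0
  have h4 : Real.logb 2 (8 * (1 + t)) = 3 + Real.logb 2 (1 + t) := by
    rw [Real.logb_mul (by norm_num) (by positivity)]
    congr 1
    rw [show (8 : ℝ) = 2 ^ (3 : ℕ) by norm_num, Real.logb_pow, Real.logb_self_eq_one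
      (by norm_num)]
    norm_num
  have h5 : Real.logb 2 (1 + t) ≤ 3 / 2 * Real.log (1 + t) := by
    unfold Real.logb
    rw [div_le_iff₀ (by linarith [log_two_gt])]
    nlinarith [log_two_gt]
  have h6 : (qq c : ℝ) ≤ 3 + (⌈Real.logb 2 (8 * (1 + t))⌉₊ : ℝ) := by
    have : qq c ≤ 3 + ⌈Real.logb 2 (8 * (1 + t))⌉₊ := by omega
    exact_mod_cast this
  unfold G
  rw [← ht]
  linarith

theorem num_bound (k q : ℕ) (g : ℝ) (hg : 1 ≤ g) (hq : (q : ℝ) ≤ 12 * g) :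
    1 + 2 * ((q : ℝ) + 5) * (((k : ℝ) + 1) * 129 * (2 * q + 125) ^ k) ≤
      (10 ^ 7 : ℝ) ^ (k + 1) * g ^ (k + 1) := by
  have hq0 : (0 : ℝ) ≤ q := by positivity
  have h1 : (q : ℝ) + 5 ≤ 17 * g := by linarith
  have h2 : (2 * (q : ℝ) + 125) ^ k ≤ 149 ^ k * g ^ k := by
    rw [← mul_pow]
    exact pow_le_pow_left₀ (by positivity) (by linarith) _
  have h3 : (k : ℝ) + 1 ≤ 2 ^ (k + 1) := by
    have : k + 1 < 2 ^ (k + 1) := Nat.lt_two_pow_self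
    exact_mod_cast this.le
  have h4 : ((k : ℝ) + 1) * 129 * (2 * q + 125) ^ k ≤ 2 ^ (k + 1) * 129 * (149 ^ k * g ^ k) := by
    gcongr
  have h5 : 2 * ((q : ℝ) + 5) * (((k : ℝ) + 1) * 129 * (2 * q + 125) ^ k) ≤
      2 * (17 * g) * (2 ^ (k + 1) * 129 * (149 ^ k * g ^ k)) := by
    gcongr
  have e : 2 * (17 * g) * (2 ^ (k + 1) * 129 * (149 ^ k * g ^ k)) =
      8772 * (298 ^ k * g ^ (k + 1)) := by
    rw [show (298 : ℝ) = 2 * 149 by norm_num, mul_pow]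
    ring
  have h6 : (1 : ℝ) ≤ 298 ^ k * g ^ (k + 1) :=
    one_le_mul_of_one_le_of_one_le (one_le_pow₀ (by norm_num)) (one_le_pow₀ hg)
  have h7 : (298 : ℝ) ^ k ≤ (10 ^ 7) ^ k := pow_le_pow_left₀ (by norm_num) (by norm_num) _
  have h8 : (298 : ℝ) ^ k * g ^ (k + 1) ≤ (10 ^ 7) ^ k * g ^ (k + 1) := by gcongr
  have h9 : (10 ^ 7 : ℝ) ^ (k + 1) * g ^ (k + 1) = 10 ^ 7 * ((10 ^ 7) ^ k * g ^ (k + 1)) := by
    ring
  rw [h9]
  linarith

theorem UPP (hS : G_SPAN) (hH : G_HUB) : G_UPP := by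
  intro k c hc
  have hg := one_le_G hc
  obtain ⟨H, hH1, hH2⟩ := hH k (qq c) (three_le_qq c)
  have hE : ∀ M : Finset (Fin (k + 1) → ℝ), M.Nonempty →
      Embeds dInf M c (M.card * (1 + 2 * (qq c + 5) * ((k + 1) * 129 * (2 * qq c + 125) ^ k))) := by
    intro M hM
    obtain ⟨S, hS1, hS2⟩ := hS (Fin (k + 1) → ℝ) dInf dInf_symm dInf_tri dInf_self dInf_pos
      (qq c) ((k + 1) * 129 * (2 * qq c + 125) ^ k) (by have := three_le_qq c; omega) H hH1 hH2 M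
    refine (embeds_of_reach dInf_symm dInf_tri dInf_self dInf_pos M hM c S ?_).mono hS1
    intro x hx y hy
    refine (hS2 x hx y hy).mono (mul_le_mul_of_nonneg_right ?_ (dInf_nonneg _ _))
    have := five_le c hc
    linarith
  refine csSup_le ⟨_, 2, le_rfl, rfl⟩ ?_
  rintro r ⟨n, hn, rfl⟩
  have h1 : n * (1 + 2 * (qq c + 5) * ((k + 1) * 129 * (2 * qq c + 125) ^ k)) ∈
      Enough (dInf (d := k + 1)) n c := by
    intro M hM
    have hne : M.Nonempty := Finset.card_pos.1 (by omega)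
    have := hE M hne
    rwa [hM] at this
  have h2 : (EN (dInf (d := k + 1)) n c : ℝ) ≤
      n * (1 + 2 * ((qq c : ℝ) + 5) * (((k : ℝ) + 1) * 129 * (2 * qq c + 125) ^ k)) := by
    exact_mod_cast EN_le h1
  have hn0 : (0 : ℝ) < n := by exact_mod_cast (by omega : 0 < n)
  rw [div_le_iff₀ hn0]
  have h3 := num_bound k (qq c) (G c) hg (qq_le c hc)
  calc _ ≤ _ := h2
    _ = (1 + 2 * ((qq c : ℝ) + 5) * (((k : ℝ) + 1) * 129 * (2 * qq c + 125) ^ k)) * n := by ring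
    _ ≤ _ := mul_le_mul_of_nonneg_right h3 hn0.le

end Pool.Agent.Helper39.SQ
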