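import Pool.Agent.Helper93.SQ.CORE
import Pool.Agent.Helper69.SQ.METRIC
import Pool.Agent.Helper31.SQ.QONE
import Pool.Agent.Helper74.SQ.COUNT
import Pool.Agent.Helper98.SQ.PIG
import Pool.Agent.Helper40.SQ.EXPA
import Pool.Agent.Helper32.SQ.EXPB
import Pool.Agent.Helper79.SQ.BAD
import Pool.Agent.Helper62.SQ.CONFIG
import Pool.Agent.Helper56.SQ.CHO
import Pool.Agent.Helper63.SQ.THE
import Pool.Agent.Helper32.SQ.LOW
import Pool.Agent.Helper98.SQ.FIN
import Pool.Agent.Helper42.SQ.SPAN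
import Pool.Agent.Helper76.SQ.DY1
import Pool.Agent.Helper98.SQ.HUBZ
import Pool.Agent.Helper8.SQ.HUB
import Pool.Agent.Helper39.SQ.UPP
import Pool.Agent.Helper71.SN.All

/-!
# MP_9b2a83_an, project SQ: the two bounds
-/

namespace Pool.Agent.Helper39.SQ

theorem fin_all : G_FIN :=
  Pool.Agent.Helper98.SQ.FIN.thm
    (Pool.Agent.Helper32.SQ.LOW.thm
      (Pool.Agent.Helper69.SQ.PkMETRIC.thm Pool.Agent.Helper93.SQ.CORE.thm)
      Pool.Agent.Helper31.SQ.QONE.thm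
      Pool.Agent.Helper71.SN.PkQINF.thm
      (Pool.Agent.Helper62.SQ.CONFIG.thm
        (Pool.Agent.Helper32.SQ.EXPB.thm
          (Pool.Agent.Helper40.SQ.EXPA.thm Pool.Agent.Helper71.SN.PkCNT1.thm
            Pool.Agent.Helper71.SN.PkCNT2.thm))
        (Pool.Agent.Helper79.SQ.BAD.thm Pool.Agent.Helper71.SN.PkCNT2.thm))
      Pool.Agent.Helper98.SQ.PIG.thm
      (Pool.Agent.Helper63.SQ.THE Pool.Agent.Helper74.SQ.thm Pool.Agent.Helper56.SQ.thm))

theorem upp_all : G_UPP :=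
  UPP Pool.Agent.Helper42.SQ.SPAN.thm
    (Helper8.SQ.HUB.thm (Pool.Agent.Helper98.SQ.HUBZ.thm Pool.Agent.Helper76.SQ.thm))

end Pool.Agent.Helper39.SQ
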