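import Pool.Agent.Helper71.SN.Goals

/-!
# MP_9b2a83_an, project SQ: the dependence on the dimension in Q1

Theorem (with `L = 1 + log (1 + 1 / (c - 1))`, an absolute `A`, all `d ≥ 2`, `c > 1`):
`A^(-d) (L / log (e + L))^(d - 2) ≤ C_p(c, d)` for `p = 1, ∞`, `C_1(c, d) ≤ A^d L^(d - 1)` (known)
and `C_∞(c, d) ≤ A^d L^d` (new; known: `A^d d! L^(d-1)`).

Conventions: base `2` digits, `D` digits per coordinate, `2 ^ N` random points, `agr 2 D t t'` is the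
number of common leading binary digits (out of `D`) of `t, t' < 2 ^ D`, `tot 2 D x y` the sum over the
coordinates (`Pool.Agent.Helper71.SN`, whose files are the models of most packets).
-/

set_option autoImplicit false

namespace Pool.Agent.Helper39.SQ

open Pool.Agent.Helper39.Net Pool.Agent.Helper71.SN

/-! ### The lower bound -/

/-- The number of coordinates in which `x` exceeds `y`. -/
def exc {d : ℕ} (x y : Pt d) : ℕ := (Finset.univ.filter fun c => y c < x c).card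

/-- The number of shapes `σ : Fin d → [0, D)` of total `N`. -/
def nshp (d D N : ℕ) : ℕ :=
  (Finset.univ.filter fun σ : Fin d → Fin D => ∑ c, (σ c : ℕ) = N).card

/-- The number of shapes `σ : Fin d → [0, D)` of total `N` that exceed `a` in at most `G`
coordinates. -/
def cnt (d D N G : ℕ) (a : Fin d → ℕ) : ℕ :=
  (Finset.univ.filter fun σ : Fin d → Fin D => ∑ c, (σ c : ℕ) = N ∧
    (Finset.univ.filter fun c => a c < (σ c : ℕ)).card ≤ G).card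

/-- A configuration: `M` is a finite set of points of the grid `[0, 2^D)^d`, `P` a set of pairs
`x < y` (in every coordinate) of points of `M` with exactly `N` common digits in total, such that `x`
and `y` are the only points of `M` in the smallest dyadic cell containing both; and every position
`s` of the grid shares at least `N + h` digits with fewer than `K` points of `M`. -/
structure Cfg (d D N h K : ℕ) (M : Finset (Pt d)) (P : Finset (Pt d × Pt d)) : Prop where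
  grid : ∀ x ∈ M, ∀ c, x c < 2 ^ D
  mem1 : ∀ p ∈ P, p.1 ∈ M
  mem2 : ∀ p ∈ P, p.2 ∈ M
  lt : ∀ p ∈ P, ∀ c, p.1 c < p.2 c
  tot : ∀ p ∈ P, tot 2 D p.1 p.2 = N
  only : ∀ p ∈ P, ∀ z ∈ M,
    (∀ c, agr 2 D (p.1 c) (p.2 c) ≤ agr 2 D (p.1 c) (z c)) → z = p.1 ∨ z = p.2
  few : ∀ s : Pt d, (∀ c, s c < 2 ^ D) →
    (M.filter fun x => N + h ≤ Pool.Agent.Helper71.SN.tot 2 D x s).card < K

/-- SQ-CORE: the charging argument in the graph.

PROOF. (Model: `Pool/Agent/Helper89/SN/CORE.lean`; `exists_crossing` is in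
`Pool.Agent.Helper39.Net`.) For a vertex `u` and `x ∈ M` let `S_x(u)` be the set of the `q ∈ P` with
`q.1 = x` and `u ∈ (W q).support`, and `c_x(u)` its cardinality. `K ≥ 1` by `few` (for `s = 0`).

(1) For fixed `x` the map `q ↦ σ_q := (c ↦ agr 2 D (x c) (q.2 c))` is injective on
`{q ∈ P | q.1 = x}`: if `σ_q = σ_{q'}` then `h.only q` with `z = q'.2` gives `q'.2 = q.1 = x` (absurd,
since `x c < q'.2 c` and `d ≥ 1`) or `q'.2 = q.2`. Moreover `σ_q c < D` (`agr_le`, `eq_of_agr`), and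
`∑ σ_q = N`.

(2) `A(u) := {x ∈ M | θ ≤ c_x(u)}` has fewer than `K` elements. Otherwise take `S ⊆ A(u)` with
exactly `K` elements and `z c := S.sup (fun x => x c)`, a grid position. By `few`, some `x ∈ S` has
`tot 2 D x z < N + h` (else the `K` elements of `S` are in the filter). Put `a c := agr 2 D (x c) (z c)`,
so `∑ a < N + h`. Let `q ∈ S_x(u)`. If `q.2 c < z c` then `z c = x' c` for some `x' ∈ S`, so
`q.2 c < x' c`; as `θ ≥ 1` there is `p ∈ P` with `p.1 = x'` through `u`, so `exc x' q.2 ≤ g` by the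
second hypothesis. Hence `#{c | q.2 c < z c} ≤ ∑_{x' ∈ S} exc x' q.2 ≤ K g`. If `z c ≤ q.2 c` then
`x c ≤ z c ≤ q.2 c` and `agr_mono` gives `σ_q c ≤ a c`. So `#{c | a c < σ_q c} ≤ K g`, and by (1)
`c_x(u) ≤ cnt d D N (K g) a < θ`, a contradiction.

(3) For `(x, y) ∈ P`: `c_x(f y) < θ`. Put `a c := agr 2 D (x c) (y c)`, `∑ a = N < N + h`. For
`q ∈ S_x(f y)` the last hypothesis gives `exc y q.2 ≤ g ≤ K g`, and if `y c ≤ q.2 c` then
`x c < y c ≤ q.2 c` and `agr_mono` gives `σ_q c ≤ a c`. So `c_x(f y) ≤ cnt d D N (K g) a < θ`.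

(4) Let `P₁ := {p ∈ P | c_{p.1}(f p.1) < θ}`. Every `q ∈ P` with `q.1 = x` has `f x` in its support
(start vertex), so each `x` is the first point of at most `θ` elements of `P₁`:
`|P₁| ≤ θ |X|`, `X := P.image Prod.fst`. For `x ∈ X`, `f x` is the `fst` of a dart: the walk `W p`
(`p.1 = x`) goes from `f p.1` to `f p.2 ≠ f p.1` (`f` is injective on `M`), so it is not `nil`. As `f`
is injective on `X ⊆ M`, `|X| ≤ #darts = 2 |E|`.

(5) Let `p ∈ P \ P₁`, `x = p.1`. By `exists_crossing` (for `v ↦ -c_x(v)`) and (3) there is a dart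
`e ∈ (W p).darts` with `c_x(e.fst) ≥ θ > c_x(e.snd)`. Choose one for every `p`. For a given dart `e`,
all `p` that chose it have `p.1 ∈ A(e.fst)` and `p ∈ S_{p.1}(e.snd)`, a set with fewer than `θ`
elements; so there are at most `K θ` of them by (2). Hence `|P \ P₁| ≤ 2 |E| K θ`. -/
def G_CORE : Prop := ∀ (d D N h K g θ : ℕ), 1 ≤ d → 1 ≤ h → 1 ≤ θ →
  (∀ a : Fin d → ℕ, ∑ c, a c < N + h → cnt d D N (K * g) a < θ) →
  ∀ (M : Finset (Pt d)) (P : Finset (Pt d × Pt d)), Cfg d D N h K M P →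
  ∀ (V : Type) (_ : Finite V) (G : SimpleGraph V) (f : Pt d → V)
    (W : ∀ p : Pt d × Pt d, G.Walk (f p.1) (f p.2)),
    Set.InjOn f M →
    (∀ p ∈ P, ∀ q ∈ P, ∀ v, v ∈ (W p).support → v ∈ (W q).support → exc p.1 q.2 ≤ g) →
    (∀ x ∈ M, ∀ q ∈ P, f x ∈ (W q).support → exc x q.2 ≤ g) →
    P.card ≤ 2 * (K + 1) * θ * G.edgeSet.ncard

/-- SQ-METRIC: from an embedding with small distortion to the charging argument.

PROOF (adapt `Pool/Agent/Helper8/SN/METRIC.lean`, almost verbatim; may assume `G_CORE`). Take the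
graph of `Embeds ρ T c m`, `f x := f0 (pt x)`; as `(c - 1) ρ(p) ≤ (c - 1) R < η / 2`, every `p ∈ P` has
`gdist (f p.1) (f p.2) < s (ρ(p) + η / 2)`, hence a walk `W p` of length `< s (ρ(p) + η / 2)`.
Injectivity of `f` on `M`: `f x = f x'` gives `s ρ (pt x) (pt x') ≤ gdist = 0`, so `x = x'` by the
positivity hypothesis. Common vertex `v` of `W p`, `W q`: if `g < exc p.1 q.2`, the four-point
hypothesis for `(p.1, p.2, q.1, q.2)` gives
`s (ρ(p) + ρ(q) + η) ≤ s (ρ(p.1,q.2) + ρ(q.1,p.2)) ≤ len W p + len W q < s (ρ(p) + ρ(q) + η)`.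
Point `x ∈ M` with `f x` on `W q`: if `g < exc x q.2`, the four-point hypothesis for
`(x, x, q.1, q.2)` gives `s (0 + ρ(q) + η) ≤ s (ρ(x,q.2) + ρ(q.1,x)) ≤ len W q < s (ρ(q) + η / 2)`. -/
def G_METRIC : Prop := ∀ (d D N h K g θ : ℕ), 1 ≤ d → 1 ≤ h → 1 ≤ θ →
  (∀ a : Fin d → ℕ, ∑ c, a c < N + h → cnt d D N (K * g) a < θ) →
  ∀ (M : Finset (Pt d)) (P : Finset (Pt d × Pt d)), Cfg d D N h K M P →
  ∀ (E : Type) (ρ : E → E → ℝ) (pt : Pt d → E) (η R c : ℝ), 0 < η → 1 ≤ c → (c - 1) * R < η / 2 →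
    (∀ x ∈ M, ρ (pt x) (pt x) = 0) →
    (∀ x ∈ M, ∀ y ∈ M, x ≠ y → 0 < ρ (pt x) (pt y)) →
    (∀ p ∈ P, ρ (pt p.1) (pt p.2) ≤ R) →
    (∀ x ∈ M, ∀ y ∈ M, ∀ x' ∈ M, ∀ y' ∈ M, (x = y ∨ ∀ c, x c < y c) → (x' = y' ∨ ∀ c, x' c < y' c) →
      g < exc x y' →
      ρ (pt x) (pt y) + ρ (pt x') (pt y') + η ≤ ρ (pt x) (pt y') + ρ (pt x') (pt y)) →
    ∀ (T : Finset E), (∀ x ∈ M, pt x ∈ T) → ∀ m : ℕ, Embeds ρ T c m →
      P.card ≤ 2 * (K + 1) * θ * m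

/-- SQ-QONE: the points in `ℓ_1` with the number of violated coordinates.

PROOF (adapt `Pool/Agent/Helper49/SN/QONE.lean`). `dOne (qOne x) (qOne y) = ∑ c, |x c - y c|`. First
part: every term is `≤ B`. Second part: for each coordinate (real numbers `x ≤ y`, `x' ≤ y'`),
`|x - y| + |x' - y'| ≤ |x - y'| + |x' - y|`, and if moreover `y' < x` (naturals) then the right side
minus the left side is `(x - y') + (y - x') - (y - x) - (y' - x') = 2 (x - y') ≥ 2 ≥ 1`. Sum. -/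
def G_QONE : Prop := ∀ (d B : ℕ) (x y x' y' : Pt d), (∀ c, x c < B) → (∀ c, y c < B) →
  ((x = y ∨ ∀ c, x c < y c) → dOne (qOne x) (qOne y) ≤ d * B) ∧
  ((x = y ∨ ∀ c, x c < y c) → (x' = y' ∨ ∀ c, x' c < y' c) →
    dOne (qOne x) (qOne y) + dOne (qOne x') (qOne y') + (exc x y' : ℝ) ≤
      dOne (qOne x) (qOne y') + dOne (qOne x') (qOne y))

/-- SQ-COUNT: few shapes of total `N` are, up to `G` coordinates, below a vector of total `< N + h`.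

PROOF. Let `σ` be counted, `S := {c | a c < σ c}`, `|S| ≤ G`; let `τ := σ` on `S` and `0` off `S`;
let `s c := a c - σ c` off `S` and `0` on `S` (so `σ c + s c = a c` off `S`). `σ` is determined by
`(S, τ, s)`. There are at most `2^d` sets `S`; for given `S` at most `D^|S| ≤ D^G` maps `τ`; for given
`S, τ` the sum `H := ∑ c, s c = ∑_{c ∉ S} a c - ∑_{c ∉ S} σ c = ∑_{c ∉ S} a c + ∑_{c ∈ S} τ c - N` is
determined and `H ≤ (N + h - 1) + G D - N ≤ h + G D`, and the number of the `s : Fin d → ℕ` with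
`∑ s = H` is `(H + d - 1).choose (d - 1) ≤ (h + G D + d - 1).choose (d - 1)`
(`Finset.piAntidiag`, `Finset.Nat.antidiagonalTuple`, or induction on `d`). -/
def G_COUNT : Prop := ∀ (d D N h G : ℕ), 1 ≤ d → 1 ≤ D → ∀ a : Fin d → ℕ, ∑ c, a c < N + h →
  cnt d D N G a ≤ 2 ^ d * D ^ G * (h + G * D + d - 1).choose (d - 1)

/-- SQ-PIG: the most popular total of a shape.

PROOF. `∑_{N = 0}^{d (D - 1)} nshp d D N = D ^ d` (every `σ : Fin d → Fin D` has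
`∑ σ ≤ d (D - 1)`). Choose `N` in this range with `nshp d D N` maximal; then
`D ^ d ≤ (d (D - 1) + 1) nshp d D N ≤ d D nshp d D N` (as `d ≥ 1`). And `N ≥ 1`: `nshp d D 0 = 1` (only
`σ = 0`), but `D ^ d = (1 + (D - 1)) ^ d > 1 + d (D - 1)` for `d ≥ 2`, `D ≥ 2`, so the maximum is `> 1`. -/
def G_PIG : Prop := ∀ d D : ℕ, 2 ≤ d → 2 ≤ D →
  ∃ N, 1 ≤ N ∧ N ≤ D * d ∧ D ^ d ≤ d * D * nshp d D N

/-- The maps whose values are the random points. -/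
abbrev Mp (d D N : ℕ) := Fin (2 ^ N) → Fin d → Fin (2 ^ D)

/-- `(i, j)` is a critical pair of `F`. -/
def Gd {d D N : ℕ} (F : Mp d D N) (i j : Fin (2 ^ N)) : Prop :=
  (∀ c, (F i c).val < (F j c).val) ∧ ∑ c, agr 2 D (F i c) (F j c) = N ∧
    ∀ k, (∀ c, agr 2 D (F i c) (F j c) ≤ agr 2 D (F i c) (F k c)) → k = i ∨ k = j

open Classical in
/-- SQ-EXPA: the number of maps for which a given pair of indices is critical of a given shape.

PROOF (adapt `Pool/Agent/Helper26/SN/EXPA.lean`; there `b = 2`, `L + 1` digits, `b ^ L` points, here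
`D` digits and `2 ^ N` points; its lemmas `card_filter_fin`, `card_filter_fin2`, `fiber_card` can be
used as they are). With `j = σ c ≤ D - 1`, `G_CNT1` for `b = 2`, `L = D - 1` says
`2 * 2 ^ j * #{(t, t') | t < t', agr 2 D t t' = j} = 2 ^ (2 D - 1)`, i.e. `2 ^ (j + 2) * # = 2 ^ (2 D)`;
product over `c`: `4 ^ d * 2 ^ N * #{(s, s') | ∀ c, …} = 2 ^ (2 D d)`. For a given pair of values at
`i, j` the other `2 ^ N - 2` values avoid a cell with `2 ^ (D d - N)` elements (`G_CNT2`). -/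
def G_EXPA : Prop := ∀ (d D N : ℕ), 1 ≤ D → ∀ (σ : Fin d → ℕ), (∀ c, σ c < D) → ∑ c, σ c = N →
  ∀ (i j : Fin (2 ^ N)), i ≠ j →
    4 ^ d * 2 ^ N * (Finset.univ.filter fun F : Mp d D N =>
      (∀ c, (F i c).val < (F j c).val ∧ agr 2 D (F i c) (F j c) = σ c) ∧
        ∀ k, k ≠ i → k ≠ j → ¬ ∀ c, σ c ≤ agr 2 D (F i c) (F k c)).card =
    2 ^ (2 * D * d) * (2 ^ (D * d) - 2 ^ (D * d - N)) ^ (2 ^ N - 2)

open Classical in
/-- SQ-EXPB: the mean number of critical pairs.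

PROOF (adapt `Pool/Agent/Helper71/SN/EXPB.lean`; may assume `G_EXPA`). Let `n = 2 ^ N ≥ 2`,
`S = 2 ^ (D d)`. If `nshp d D N = 0` the left side is `0`. Otherwise `N ≤ d (D - 1)`. For every pair
`i ≠ j` the sets of maps of `G_EXPA` for the different shapes `σ` are disjoint subsets of
`{F | Gd F i j}`, so
`4^d n ∑_F #{(i,j) | Gd F i j} ≥ n (n - 1) nshp S^2 (S - S / n)^(n - 2)`, i.e.
`4^d ∑_F #… ≥ (n - 1) nshp S^n (1 - 1/n)^(n-2)`. Now `(1 - 1/n)^(n-2) ≥ (1 - 1/n)^(n-1) ≥ 1/3` (see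
`real_part` in `EXPB.lean`) and `n - 1 ≥ n / 2`, which gives the claim. -/
def G_EXPB : Prop := ∀ (d D N : ℕ), 1 ≤ D → 1 ≤ N →
  2 ^ (D * d * 2 ^ N) * (2 ^ N * nshp d D N) ≤ 6 * 4 ^ d *
    ∑ F : Mp d D N, (Finset.univ.filter fun q : Fin (2 ^ N) × Fin (2 ^ N) => Gd F q.1 q.2).card

open Classical in
/-- SQ-BAD: few maps have a position sharing `N + h` digits with `K` points.

PROOF (adapt `Pool/Agent/Helper96/SN/BAD.lean`; its `card_many` can be used). Let `n = 2 ^ N`,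
`S = 2 ^ (D d)`. For a position `s` let `Q` be the number of the `x : Fin d → Fin (2 ^ D)` with
`N + h ≤ ∑ c, agr 2 D (x c) (s c)`. Every such `x` is in the set `{x | ∀ c, a c ≤ agr 2 D (x c) (s c)}`,
which has `2 ^ (D d - ∑ a)` elements (`G_CNT2`), for `a c := agr 2 D (x c) (s c) ≤ D`,
`N + h ≤ ∑ a ≤ D d`; there are at most `(D + 1) ^ d` vectors `a`. Hence
`Q * 2 ^ (N + h) ≤ (D + 1) ^ d * S`. By `card_many` the number of the maps with at least `K` indices in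
the set is at most `(n Q) ^ K * S ^ (n - K)` (and `0` if `K > n`), so, with
`n Q 2 ^ h ≤ (D + 1) ^ d S`, times `2 ^ (h K)` at most `(D + 1) ^ (d K) S ^ n`. Sum over the `S`
positions: `#bad * 2 ^ (h K) ≤ (D + 1) ^ (d K) * 2 ^ (D d) * S ^ n`. Multiply by
`2 ^ (2 N) * 2 ^ (2 d + 6) ≤ 2 ^ (2 D d + 2 d + 6)` and use the hypothesis
`(D + 1) ^ (d K) * 2 ^ (3 D d + 2 d + 6) ≤ 2 ^ (h K)`; cancel `2 ^ (h K)`. -/
def G_BAD : Prop := ∀ (d D N h K : ℕ), N ≤ D * d →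
  (D + 1) ^ (d * K) * 2 ^ (3 * D * d + 2 * d + 6) ≤ 2 ^ (h * K) →
  (Finset.univ.filter fun F : Mp d D N => ∃ s : Fin d → Fin (2 ^ D),
    K ≤ (Finset.univ.filter fun k : Fin (2 ^ N) =>
      N + h ≤ ∑ c, agr 2 D (F k c) (s c)).card).card * (2 ^ (2 * N) * 2 ^ (2 * d + 6)) ≤
    2 ^ (D * d * 2 ^ N)

/-- SQ-CONFIG: good configurations exist.

PROOF (adapt `Pool/Agent/Helper73/SN/CONFIG.lean`; may assume `G_EXPB`, `G_BAD`). Let
`X F := #{(i, j) | Gd F i j} ≤ 2 ^ (2 N)`, `T := 2 ^ (D d 2 ^ N)` the number of maps,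
`Y := 2 ^ N * nshp d D N ≥ 1`. By `G_EXPB`, `T Y ≤ 6 4^d ∑_F X F`, and by `G_BAD` the bad maps
contribute at most `T / (64 * 4 ^ d)` to the sum. If every good map had `12 * 4 ^ d * X F < Y`, then
`T Y ≤ 6 4^d ∑ X ≤ T Y / 2 + 6 T / 64 < T Y`, a contradiction. So some map `F` which is not bad has
`Y ≤ 12 * 4 ^ d * X F`. Let `M` be the image of `F` (points of `Pt d`) and `P` the image of the critical
pairs; see `config_of` in the model for the properties and for `P.card = X F`. -/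
def G_CONFIG : Prop := ∀ (d D N h K : ℕ), 1 ≤ d → 1 ≤ D → 1 ≤ N → N ≤ D * d → 1 ≤ nshp d D N →
  (D + 1) ^ (d * K) * 2 ^ (3 * D * d + 2 * d + 6) ≤ 2 ^ (h * K) →
  ∃ (M : Finset (Pt d)) (P : Finset (Pt d × Pt d)), M.card ≤ 2 ^ N ∧ Cfg d D N h K M P ∧
    2 ^ N * nshp d D N ≤ 12 * 4 ^ d * P.card

/-- SQ-CHO: a binomial coefficient.

PROOF. `d * ((d m).choose d) = d m * (d m - 1).choose (d - 1)`, so
`m * (d m - 1).choose (d - 1) = (d m).choose d ≤ (d m)^d / d! ≤ (e m)^d ≤ (3 m)^d`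
(`Nat.choose_le_pow_div`, `Real.pow_div_factorial_le_exp` with `x = d`; compare `choose_le_aux` in
`Pool/Agent/Helper39/Net/Bounds.lean`). -/
def G_CHO : Prop := ∀ d m : ℕ, 1 ≤ d → 1 ≤ m → m * (d * m - 1).choose (d - 1) ≤ (3 * m) ^ d

/-- SQ-THE: the threshold. With `l = Nat.log 2 (D + 1)`, `h = 4 d l`, `K = (2 D + 3) / l + 1` and
`g ≤ d / 2 ^ (D + 1)` there are at most `2 * 168 ^ d * l ^ (d - 1)` shapes, and `K` satisfies the
condition of `G_BAD`.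

PROOF (may assume `G_COUNT`, `G_CHO`). `D ≥ 2`, so `1 ≤ l ≤ D`, `2 ^ l ≤ D + 1 < 2 ^ (l + 1) ≤ 2 ^ (2 l)`.
`l K > 2 D + 3`. First claim: `(D + 1)^(d K) ≤ 2^(2 l d K)` and `3 D d + 2 d + 6 ≤ d (3 D + 5) ≤
2 d l K` (`d ≥ 2`, `2 l K ≥ 4 D + 6 ≥ 3 D + 5`), so the product is at most `2 ^ (4 l d K) = 2 ^ (h K)`.
Second claim: `(K + 1) l ≤ 2 D + 3 + 2 l ≤ 4 D + 3 ≤ 6 D`.
Third claim: let `G = K g`. `K ≤ 2 D + 4`, so `G ≤ (2 D + 4) d / 2 ^ (D + 1) = (D + 2) d / 2 ^ D`, i.e.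
`G 2^D ≤ (D + 2) d`. As `(D + 2) D ≤ 2 * 2 ^ D` for `D ≥ 2` (induction), `G D 2^D ≤ 2 d 2 ^ D`, so
`G D ≤ 2 d`, and `D ≤ 2 ^ D` gives `D ^ G ≤ 2 ^ (D G) ≤ 4 ^ d`. By `G_COUNT`
`cnt d D N G a ≤ 2^d 4^d (4 d l + 2 d + d - 1).choose (d - 1) = 8 ^ d (d m - 1).choose (d - 1)` with
`m = 4 l + 3`, and `m (d m - 1).choose (d - 1) ≤ (3 m)^d` gives
`(d m - 1).choose (d - 1) ≤ 3 ^ d m ^ (d - 1) ≤ 3 ^ d (7 l) ^ (d - 1)`. So
`cnt ≤ 24 ^ d 7 ^ (d - 1) l ^ (d - 1) < 2 * 168 ^ d * l ^ (d - 1)`. -/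
def G_THE : Prop := ∀ (d D N l h K g : ℕ), 2 ≤ d → 2 ≤ D → l = Nat.log 2 (D + 1) → h = 4 * d * l →
  K = (2 * D + 3) / l + 1 → g * 2 ^ (D + 1) ≤ d →
  (D + 1) ^ (d * K) * 2 ^ (3 * D * d + 2 * d + 6) ≤ 2 ^ (h * K) ∧ (K + 1) * l ≤ 6 * D ∧
  ∀ a : Fin d → ℕ, ∑ c, a c < N + h → cnt d D N (K * g) a < 2 * 168 ^ d * l ^ (d - 1)

/-- SQ-LOW: the lower bound with the parameter `D`.

PROOF (adapt `Pool/Agent/Helper82/SN/LOW.lean`; may assume `G_METRIC`, `G_QONE`,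
`Pool.Agent.Helper71.SN.G_QINF` (proved: `Pool.Agent.Helper71.SN.PkQINF.thm`), `G_CONFIG`, `G_PIG`,
`G_THE`). `d = k + 2`, `B = 2 ^ D`, `l = Nat.log 2 (D + 1) ≥ 1`, `N` from `G_PIG`, `n := 2 ^ N ≥ 2`,
`h, K` as in `G_THE`, `θ := 2 * 168 ^ d * l ^ (d - 1) ≥ 1`, `h ≥ 1`; `M, P` from `G_CONFIG`
(`nshp ≥ 1` since `D ^ d ≥ 1`). Let `c ≥ 1`, `(c - 1) 4 B^2 ≤ 1`.
`p = 1`: `pt = qOne`, `R = d B`, `g := ⌊2 (c - 1) d B⌋₊`, `η := g + 1`; then `(c - 1) R < η / 2` as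
`2 (c - 1) d B < g + 1`; and `g * 2 ^ (D + 1) = 2 B g ≤ 4 (c - 1) d B^2 ≤ d`. Four-point hypothesis: by
`G_QONE`, as `g < exc x y'` means `η = g + 1 ≤ exc x y'`. Positivity: `qOne` is injective and
`dOne_pos`. `p = ∞`: `pt = qInf k B`, `R = B`, `g := 0`, `η := 1 / B`; `(c - 1) B ≤ 1 / (4 B) < η / 2`;
four-point: `0 < exc x y'` gives `c` with `y' c < x c`, so `G_QINF` applies. Positivity: apply `G_QINF`
to `(x, x, y, y)` with `x ≠ y` (if both `∀ c, x c ≤ y c` and `∀ c, y c ≤ x c` then `x = y`): its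
conclusion is `0 + 0 + 1 / B ≤ dInf (qInf x) (qInf y) + dInf (qInf y) (qInf x)`, so
`dInf (qInf x) (qInf y) > 0`.
`G_METRIC` for a set `T` with `n` elements containing the image of `M` and `m = EN` gives
`P.card ≤ 2 (K + 1) θ EN`. With `2 ^ N nshp ≤ 12 4^d P.card`, `D ^ (d - 1) ≤ d nshp`,
`(K + 1) l ≤ 6 D` and `l ^ (d - 1) = l * l^k`:
`n D^(d-1) l ≤ d 12 4^d P.card l ≤ d 12 4^d 2 (K + 1) l θ EN ≤ d 12 4^d 12 D 2 168^d l^(d-1) EN`, so
`n D^k ≤ 288 d 672^d l^k EN` (divide by `D l`), and `288 d ≤ 288 * 2 ^ d ≤ 34 ^ d` for `d ≥ 2`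
(`288 ≤ 17 ^ 2`), `34 * 672 ≤ 10 ^ 5`. -/
def G_LOW : Prop := ∀ (k D : ℕ), 2 ≤ D → ∃ n : ℕ, 2 ≤ n ∧ ∀ c : ℝ, 1 ≤ c →
  (c - 1) * (4 * ((2 : ℝ) ^ D) ^ 2) ≤ 1 →
    (n : ℝ) * (D : ℝ) ^ k ≤
        (10 ^ 5 : ℝ) ^ (k + 2) * (Nat.log 2 (D + 1) : ℝ) ^ k * EN (dOne (d := k + 2)) n c ∧
      (n : ℝ) * (D : ℝ) ^ k ≤
        (10 ^ 5 : ℝ) ^ (k + 2) * (Nat.log 2 (D + 1) : ℝ) ^ k * EN (dInf (d := k + 2)) n c

/-- SQ-FIN: the final lower bound.

PROOF (compare `Pool/Agent/Helper87/SN/FQ1.lean`; may assume `G_LOW`). Facts from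
`Pool.Agent.Helper39.Net`: `one_le_G`, `bdd_one (k + 1) c hc`, `bdd_inf (k + 1) c hc` (the ratios are
bounded), `two_one`, `two_inf` with `half_le` (`1 ≤ 10000 CN`), and `EN n c / n ≤ CN c` for `n ≥ 2`
(`le_csSup`). Let `t = 1 / (c - 1)`, `G = 1 + log (1 + t)`.
Case `c - 1 > 1/64`: `G ≤ 1 + log 65 ≤ 6`, `log (e + G) ≥ 1`, so the left side is `≤ 6 ^ k` and
`6 ^ k ≤ A ^ (k + 2) CN` since `1 ≤ 10000 CN`.
Case `c - 1 ≤ 1/64`: let `D` be the largest natural number with `(c - 1) * (4 * (2^D)^2) ≤ 1`; `D ≥ 2`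
(`4 * 16 = 64`). With `l = Nat.log 2 (D + 1) ≥ 1`. Upper bound: `(c - 1) 4 4^(D+1) > 1`, so
`t < 4 ^ (D + 2)` and `G ≤ 1 + log (2 * 4 ^ (D + 2)) = 1 + log 2 + (D + 2) log 4 ≤ 4.5 + 1.4 D ≤ 4 D`.
Lower bound: `t ≥ 4 ^ (D + 1)`, so `G ≥ 1 + (D + 1) log 4 ≥ D + 1` and
`log (e + G) ≥ log (D + 1) ≥ l log 2`. Hence `G / log (e + G) ≤ 4 D / (l log 2) ≤ 6 D / l` and, with
`n` from `G_LOW`, `(G / log (e + G)) ^ k ≤ 6 ^ k D ^ k / l ^ k ≤ 6 ^ k (10^5)^(k+2) EN / n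
≤ 6 ^ k (10^5)^(k+2) CN`. Take `A = 10 ^ 6`. -/
def G_FIN : Prop := ∃ A : ℝ, 1 ≤ A ∧ ∀ (k : ℕ) (c : ℝ), 1 < c →
  (G c / Real.log (Real.exp 1 + G c)) ^ k ≤ A ^ (k + 2) * CN (dOne (d := k + 2)) c ∧
    (G c / Real.log (Real.exp 1 + G c)) ^ k ≤ A ^ (k + 2) * CN (dInf (d := k + 2)) c

/-! ### The upper bound for `ℓ_∞` without factorial -/

/-- SQ-SPAN: `(1 + 5 / 2^q)`-networks from local hubs.

PROOF (the frame is `spanner` in `Pool/Agent/Helper39/Net/Spanner.lean`, with scales of ratio `2`; it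
uses `exists_net`, `telescope1` from the same file). For `X` with at most one point take `S = ∅`. Let
`r0 := (minimal distance in X) / 2 ^ (q + 1)`, `r s := r0 * 2 ^ s`. `N 0 = X` and `N (s+1) ⊆ N s` is an
`r (s+1)`-net of `N s` (`exists_net`): distinct points of `N s` have distance `≥ r s`, every `x ∈ N s`
has a parent `par s x ∈ N (s + 1)` with `ρ x (par s x) < r (s + 1)`. Let `J` be such that
`2 ^ (q + 1) * r J >` the diameter of `X`. With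
`Rel s := {x ∈ N s | ∃ y ∈ N s, y ≠ x ∧ ρ x y ≤ 2 ^ (q + 3) * r s}` let
`S := ⋃_{s < J} ({(x, par s x) | x ∈ N s \ N (s + 1)} ∪ {(x, v) | x ∈ Rel s, v ∈ H (r s) x})`.
Count: as in `spanner` (`hRel`), `|Rel s| ≤ 2 (|N s| - |N (s + q + 5)|)`: an element `x` of
`Rel s ∩ N (s + q + 5)` has a `g x ∈ N s`, `g x ≠ x`, `ρ x (g x) ≤ 2^(q+3) r s < r (s + q + 5)`, so
`g x ∉ N (s + q + 5)`, and `g` is injective since two distinct points of `N (s + q + 5)` have distance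
`≥ 2 ^ (q + 5) r s > 2 * 2 ^ (q + 3) r s`. The telescoping sum of `|N s| - |N (s + q + 5)|` is at most
`(q + 5) |X|`. So `|S| ≤ |X| (1 + 2 (q + 5) T)`.
Chains: for `x ∈ X` and `s ≤ J` the `s`-th ancestor `x_s ∈ N s` is reached with total length
`≤ ∑_{j ≤ s} r j < 2 r s`. Let `x ≠ y`, `D = ρ x y ≥ 2 ^ (q + 1) r 0`, and let `s < J` be the largest
with `2 ^ (q + 1) r s ≤ D`, so `D < 2 ^ (q + 2) r s`. Then
`|ρ x_s y_s - D| ≤ 4 r s`, hence `2 ^ q r s ≤ ρ x_s y_s ≤ 2 ^ (q + 3) r s` (`q ≥ 2`), so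
`x_s ≠ y_s` are in `Rel s` and a common hub `v` gives a chain `x, x_s, v, y_s, y` of length
`≤ 2 r s + (ρ x_s y_s + 2 r s) + 2 r s ≤ D + 10 r s ≤ (1 + 5 / 2 ^ q) D`. -/
def G_SPAN : Prop := ∀ (E : Type) (ρ : E → E → ℝ), (∀ x y, ρ x y = ρ y x) →
  (∀ x y z, ρ x z ≤ ρ x y + ρ y z) → (∀ x, ρ x x = 0) → (∀ x y, x ≠ y → 0 < ρ x y) →
  ∀ (q T : ℕ), 2 ≤ q → ∀ H : ℝ → E → Finset E, (∀ r x, (H r x).card ≤ T) →
  (∀ r : ℝ, 0 < r → ∀ x y : E, 2 ^ q * r ≤ ρ x y → ρ x y ≤ 2 ^ (q + 3) * r →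
    ∃ v ∈ H r x, v ∈ H r y ∧ ρ x v + ρ v y ≤ ρ x y + 2 * r) →
  ∀ X : Finset E, ∃ S : Finset (E × E), S.card ≤ X.card * (1 + 2 * (q + 5) * T) ∧
    ∀ x ∈ X, ∀ y ∈ X, Reach ρ (S : Set (E × E)) x y ((1 + 5 / 2 ^ q) * ρ x y)

/-- The candidates for a hub coordinate in the interval `[α, β]`: the multiple of `2 ^ i` next to the
left end and to the right end for `i < r`, and the multiples of `2 ^ r` at distance at most
`128 * 2 ^ r` from the left end. -/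
noncomputable def FF (r : ℕ) (α β : ℤ) : Finset ℤ :=
  ((Finset.range r).image fun i => -((-α) / 2 ^ i) * 2 ^ i) ∪
    ((Finset.range r).image fun i => β / 2 ^ i * 2 ^ i) ∪
    (Finset.Icc (α / 2 ^ r) (α / 2 ^ r + 128)).image fun m => m * 2 ^ r

/-- SQ-DY1: two long intervals with a common point have a common candidate in both.

PROOF. `-((-α) / 2^i) * 2^i` is the smallest multiple of `2^i` that is `≥ α` and `β / 2^i * 2^i` the
largest that is `≤ β` (`Int.ediv_mul_le`, `Int.lt_ediv_add_one_mul_self`). Suppose first that some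
multiple `m` of `2^r` lies in both intervals: it is in both sets, since
`α ≤ m ≤ β ≤ α + 127 * 2^r` gives `α / 2^r ≤ m / 2^r ≤ α / 2^r + 128`. Otherwise neither interval
contains the other one, as each has length `≥ 2^r` and so contains a multiple of `2^r`. So we may
assume (exchange the intervals) `α < α' ≤ β < β'`; the intersection is `[α', β]` and contains no
multiple of `2^r`. Let `i` be the largest exponent such that `[α', β]` contains a multiple `m` of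
`2^i` (`i = 0` works), `i < r`. `m` is the only multiple of `2^i` in `[α', β]`: of two consecutive
multiples of `2^i` one is a multiple of `2^(i+1)`. So `m` is the smallest multiple of `2^i` that is
`≥ α'`, hence in `FF r α' β'`, and the largest that is `≤ β`, hence in `FF r α β`. -/
def G_DY1 : Prop := ∀ (r : ℕ) (α β α' β' : ℤ), α + 2 ^ r ≤ β → β ≤ α + 127 * 2 ^ r →
  α' + 2 ^ r ≤ β' → β' ≤ α' + 127 * 2 ^ r → α' ≤ β → α ≤ β' →
  ∃ m ∈ FF r α β, m ∈ FF r α' β' ∧ α ≤ m ∧ m ≤ β ∧ α' ≤ m ∧ m ≤ β'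

/-- SQ-HUBZ: hubs in `ℤ^(k+1)`.

PROOF (may assume `G_DY1`). Put `r := q - 2`. For `x : Fin (k + 1) → ℤ` let `H x` be the union over
`j : Fin (k + 1)` and over the multiples `t` of `2^r` with `|t - x j| ≤ 2 ^ (q + 4)` (at most
`2 ^ (q + 5) / 2 ^ (q - 2) + 1 = 129`) of the set of the `v` with `v j = t` and
`v i ∈ FF r (x i - |t - x j|) (x i + |t - x j|)` for `i ≠ j`
(`Fintype.piFinset fun i => if i = j then {t} else FF r …`). `|FF r α β| ≤ 2 r + 129 ≤ 2 q + 125`. So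
`|H x| ≤ (k + 1) * 129 * (2 q + 125) ^ k`.
Let `x, y` satisfy the hypotheses, with `D := |x j - y j|` maximal, `2 ^ (q - 1) ≤ D ≤ 2 ^ (q + 4)`,
and, exchanging `x` and `y` if necessary, `y j = x j + D`. Choose a multiple `t` of `2^r` with
`x j + D / 4 ≤ t ≤ y j - D / 4` (real inequalities `4 (t - x j) ≥ D`, `4 (y j - t) ≥ D`): an interval
of length `D / 2 ≥ 2 ^ (q - 2)` contains one. Let `τ = t - x j`, `τ' = y j - t`, `τ + τ' = D`,
`2 ^ (q - 3) ≤ τ, τ' ≤ 2 ^ (q + 4)`. For `i ≠ j` the intervals `[x i - τ, x i + τ]` and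
`[y i - τ', y i + τ']` have lengths `2 τ, 2 τ'` with `2 τ ≥ D / 2 ≥ 2 ^ (q - 2) = 2 ^ r` and
`2 τ ≤ 3 D / 2 ≤ 96 * 2 ^ r` (as `4 τ' ≥ D`; the same for `τ'`), and they meet since
`|x i - y i| ≤ D = τ + τ'`. `G_DY1` gives `v i`. Then
`|x i - v i| ≤ τ`, `|v i - y i| ≤ τ'` for all `i` (also for `i = j`, `v j = t`). -/
def G_HUBZ : Prop := ∀ (k q : ℕ), 3 ≤ q → ∃ H : (Fin (k + 1) → ℤ) → Finset (Fin (k + 1) → ℤ),
  (∀ x, (H x).card ≤ (k + 1) * 129 * (2 * q + 125) ^ k) ∧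
  ∀ (x y : Fin (k + 1) → ℤ) (j : Fin (k + 1)), (∀ i, |x i - y i| ≤ |x j - y j|) →
    2 ^ (q - 1) ≤ |x j - y j| → |x j - y j| ≤ 2 ^ (q + 4) →
    ∃ v ∈ H x, v ∈ H y ∧ ∃ τ τ' : ℤ, τ + τ' = |x j - y j| ∧ (∀ i, |x i - v i| ≤ τ) ∧
      ∀ i, |v i - y i| ≤ τ'

/-- SQ-HUB: hubs in `ℝ^(k+1)` at scale `r`.

PROOF (may assume `G_HUBZ`). Let `H r x` be the image of `H_ℤ (i ↦ round (x i / r))` under
`v ↦ (i ↦ r * v i)` (for `r ≤ 0` this is also fine). Let `r > 0`, `2 ^ q r ≤ ρ := dInf x y ≤ 2 ^ (q+3) r`,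
`X i = round (x i / r)`, `Y i = round (y i / r)`: `|x i - r X i| ≤ r / 2` (`abs_sub_round`). Let `j`
maximise `|X i - Y i|`, `D = |X j - Y j|`: `|D - ρ / r| ≤ 1`, so
`2 ^ (q - 1) ≤ D ≤ 2 ^ (q + 4)` (`q ≥ 1`). `G_HUBZ` gives `v, τ, τ'` with `τ + τ' = D`; then
`dInf x (r v) ≤ r / 2 + r τ`, `dInf (r v) y ≤ r / 2 + r τ'` and the sum is
`≤ r + r D ≤ r + ρ + r = ρ + 2 r`. (`dInf x y = ‖x - y‖`; `pi_norm_le_iff_of_nonneg`.) -/
def G_HUB : Prop := ∀ (k q : ℕ), 3 ≤ q → ∃ H : ℝ → (Fin (k + 1) → ℝ) → Finset (Fin (k + 1) → ℝ),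
  (∀ r x, (H r x).card ≤ (k + 1) * 129 * (2 * q + 125) ^ k) ∧
  ∀ r : ℝ, 0 < r → ∀ x y : Fin (k + 1) → ℝ, 2 ^ q * r ≤ dInf x y → dInf x y ≤ 2 ^ (q + 3) * r →
    ∃ v ∈ H r x, v ∈ H r y ∧ dInf x v + dInf v y ≤ dInf x y + 2 * r

/-- SQ-UPP: the upper bound for `ℓ_∞` without factorial.

PROOF (may assume `G_SPAN`, `G_HUB`; compare `upper_inf`, `ratio_inf` and `CN` in
`Pool/Agent/Helper39/Net/{Bounds,Parts}.lean`). Let `t = 1 / (c - 1)`, `q := max 3 ⌈logb 2 (5 t)⌉₊`, so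
`5 / 2 ^ q ≤ c - 1`, and `(q : ℝ) ≤ 12 G c` (`G c = 1 + log (1 + t)`: `q ≤ 3 + (1 + logb 2 (5 (1 + t)))
≤ 7 + 1.5 log (1 + t)`; compare `ell_le`). `G_SPAN` for `dInf` and the hubs of `G_HUB` with
`T = (k + 1) * 129 * (2 q + 125) ^ k`, and `embeds_of_reach` give
`Embeds dInf M c (M.card * (1 + 2 (q + 5) T))` for every nonempty `M`. So for `n ≥ 2`,
`EN n c ≤ n (1 + 2 (q + 5) T)` and `CN ≤ 1 + 2 (q + 5) T`. As `G c ≥ 1`: `q + 5 ≤ 17 G`,
`2 q + 125 ≤ 149 G`, `k + 1 ≤ 2 ^ (k + 1)`, so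
`1 + 2 (q + 5) T ≤ 1 + 34 G 2 ^ (k + 1) 129 149 ^ k G ^ k ≤ (10 ^ 7) ^ (k + 1) * G ^ (k + 1)`. -/
def G_UPP : Prop := ∀ (k : ℕ) (c : ℝ), 1 < c →
  CN (dInf (d := k + 1)) c ≤ (10 ^ 7 : ℝ) ^ (k + 1) * G c ^ (k + 1)

end Pool.Agent.Helper39.SQ
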