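import Pool.Agent.Helper4.SQ.GoalsL

/-!
Packet 12383 (SQL-LF3, MP_bb32d1_al): `sLF3 : S_LF3`, by helper39.
-/

set_option autoImplicit false
set_option linter.unusedSectionVars false
set_option linter.unusedVariables false

namespace Pool.Agent.Helper39.SQ

noncomputable section

open Pool.Agent.Helper19.SQ Pool.Agent.Helper4.SQ

theorem zmod_ne (l m : ℕ) (h0 : 0 < m) (h : m < l) : ((m : ℕ) : ZMod l) ≠ 0 := by
  intro he
  rw [ZMod.natCast_eq_zero_iff] at he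
  exact absurd (Nat.le_of_dvd h0 he) (by omega)

theorem sLF3 (hZL : S_ZL) (hGEN : S_GEN) (hMRY : S_MRY) (hFEQ : S_FEQ) (hLF2 : S_LF2) :
    S_LF3 := by
  intro l _ V _ _ T hl G hGe hG U W hU hW hU0 hW0 Z hZ hZ0
  -- distinctness
  have n1 : (1 : ZMod l) ≠ 0 := by
    have := zmod_ne l 1 (by norm_num) (by omega)
    simpa using this
  have n2 : (2 : ZMod l) ≠ 0 := by
    have := zmod_ne l 2 (by norm_num) (by omega)
    simpa using this
  have n3 : (3 : ZMod l) ≠ 0 := by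
    have := zmod_ne l 3 (by norm_num) (by omega)
    simpa using this
  have n4 : (4 : ZMod l) ≠ 0 := by
    have := zmod_ne l 4 (by norm_num) (by omega)
    simpa using this
  obtain ⟨z, hz⟩ : ∃ z : ZMod l, z = -1 := ⟨_, rfl⟩
  obtain ⟨y, hy⟩ : ∃ y : ZMod l, y = -1 - 1 := ⟨_, rfl⟩
  have hz0 : z ≠ 0 := fun h => n1 (by linear_combination hz - h)
  have hz1 : z ≠ 1 := fun h => n2 (by linear_combination hz - h)
  have hz2 : z ≠ 2 := fun h => n3 (by linear_combination hz - h)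
  have hy0 : y ≠ 0 := fun h => n2 (by linear_combination hy - h)
  have hy1 : y ≠ 1 := fun h => n3 (by linear_combination hy - h)
  have hy2 : y ≠ 2 := fun h => n4 (by linear_combination hy - h)
  have hyz : y ≠ z := fun h => n1 (by linear_combination hy - h - hz)
  have h21 : (2 : ZMod l) ≠ 1 := fun h => n1 (by linear_combination h)
  have h31 : (3 : ZMod l) ≠ 1 := fun h => n2 (by linear_combination h)
  have h32 : (3 : ZMod l) ≠ 2 := fun h => n1 (by linear_combination h)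
  have z1 : z + 1 = 0 := by rw [hz]; ring
  have y1 : y + 1 = z := by rw [hy, hz]; ring
  have zy : z - 1 = y := by rw [hy, hz]
  have zz : (0 : ZMod l) - 1 = z := by rw [hz]; ring
  rw [← hz] at hU0 hW0 ⊢
  have hG' : ∀ c, c ≠ z → G.e c (c + 1) = T.E c 0 ∧ G.e (c + 1) c = T.F c 0 := by
    intro c hc; exact hG c (by rw [← hz]; exact hc)
  have hLF2' : ∀ r c, c ≠ z → Z r c (c + 1) = T.E c r ∧ Z r (c + 1) c = T.F c r := by
    intro r c hc
    exact hLF2 l V T hl G hGe hG r (Z r) (hZ r) (hZ0 r) c (by rw [← hz]; exact hc)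
  obtain ⟨⟨f3, f4, f5, f6⟩, ⟨e3, e4, e5, e6⟩⟩ := hMRY l V T (by omega)
  have hcard : 5 ≤ Fintype.card (ZMod l) := by rw [ZMod.card]; exact hl
  -- entries of G
  have g01 : G.e 0 1 = T.E 0 0 := by have := (hG' 0 hz0.symm).1; rwa [zero_add] at this
  have g10 : G.e 1 0 = T.F 0 0 := by have := (hG' 0 hz0.symm).2; rwa [zero_add] at this
  have gyz : G.e y z = T.E y 0 := by have := (hG' y hyz).1; rwa [y1] at this
  have gzy : G.e z y = T.F y 0 := by have := (hG' y hyz).2; rwa [y1] at this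
  -- entries of Z
  have z01 : ∀ r, Z r 0 1 = T.E 0 r := fun r => by
    have := (hLF2' r 0 hz0.symm).1; rwa [zero_add] at this
  have z10 : ∀ r, Z r 1 0 = T.F 0 r := fun r => by
    have := (hLF2' r 0 hz0.symm).2; rwa [zero_add] at this
  have z12 : ∀ r, Z r 1 2 = T.E 1 r := fun r => by
    have := (hLF2' r 1 hz1.symm).1; rwa [one_add_one_eq_two] at this
  have z21 : ∀ r, Z r 2 1 = T.F 1 r := fun r => by
    have := (hLF2' r 1 hz1.symm).2; rwa [one_add_one_eq_two] at this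
  have z23 : ∀ r, Z r 2 3 = T.E 2 r := fun r => by
    have := (hLF2' r 2 hz2.symm).1; rwa [two_add_one_eq_three] at this
  have zyz : ∀ r, Z r y z = T.E y r := fun r => by
    have := (hLF2' r y hyz).1; rwa [y1] at this
  have zzy : ∀ r, Z r z y = T.F y r := fun r => by
    have := (hLF2' r y hyz).2; rwa [y1] at this
  -- family relations
  have ne : ∀ {a b : ZMod l}, a ≠ b → b ≠ a := fun h => h.symm
  -- U
  have r10 : ∀ P : ZMod l → ZMod l → Module.End ℂ V, IsFam G P →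
      ⁅G.e 1 0, P 0 z⁆ = P 1 z := by
    intro P hP
    rw [hP.rel 1 0 0 z n1 hz0.symm (fun h => hz1 h.2.symm), if_pos rfl,
      if_neg hz1.symm, sub_zero]
  have rzy : ∀ P : ZMod l → ZMod l → Module.End ℂ V, IsFam G P →
      ⁅G.e z y, P 0 z⁆ = - P 0 y := by
    intro P hP
    rw [hP.rel z y 0 z hyz.symm hz0.symm (fun h => hy0 h.1), if_neg hy0,
      if_pos rfl, zero_sub]
  have rzy1 : ∀ P : ZMod l → ZMod l → Module.End ℂ V, IsFam G P →
      ⁅G.e z y, P 1 z⁆ = - P 1 y := by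
    intro P hP
    rw [hP.rel z y 1 z hyz.symm hz1.symm (fun h => hy1 h.1), if_neg hy1,
      if_pos rfl, zero_sub]
  have r10y : ∀ P : ZMod l → ZMod l → Module.End ℂ V, IsFam G P →
      ⁅G.e 1 0, P 0 y⁆ = P 1 y := by
    intro P hP
    rw [hP.rel 1 0 0 y n1 hy0.symm (fun h => hy1 h.2.symm), if_pos rfl,
      if_neg hy1.symm, sub_zero]
  -- W
  have w01 : ∀ P : ZMod l → ZMod l → Module.End ℂ V, IsFam G P →
      ⁅G.e 0 1, P z 0⁆ = - P z 1 := by
    intro P hP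
    rw [hP.rel 0 1 z 0 n1.symm hz0 (fun h => hz1 h.1.symm), if_neg hz1.symm,
      if_pos rfl, zero_sub]
  have w01y : ∀ P : ZMod l → ZMod l → Module.End ℂ V, IsFam G P →
      ⁅G.e 0 1, P y 0⁆ = - P y 1 := by
    intro P hP
    rw [hP.rel 0 1 y 0 n1.symm hy0 (fun h => hy1 h.1.symm), if_neg hy1.symm,
      if_pos rfl, zero_sub]
  have wyz : ∀ P : ZMod l → ZMod l → Module.End ℂ V, IsFam G P →
      ⁅G.e y z, P z 0⁆ = P y 0 := by
    intro P hP
    rw [hP.rel y z z 0 hyz hz0 (fun h => hy0 h.2), if_pos rfl,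
      if_neg hy0, sub_zero]
  have wyz1 : ∀ P : ZMod l → ZMod l → Module.End ℂ V, IsFam G P →
      ⁅G.e y z, P z 1⁆ = P y 1 := by
    intro P hP
    rw [hP.rel y z z 1 hyz hz1 (fun h => hy1 h.2), if_pos rfl,
      if_neg hy1, sub_zero]
  have uz1 : ⁅G.e z 1, U 0 z⁆ = - U 0 1 := by
    rw [hU.rel z 1 0 z hz1 hz0.symm (fun h => n1 h.1), if_neg n1,
      if_pos rfl, zero_sub]
  have zr12 : ∀ r, ⁅G.e 0 1, Z r 1 2⁆ = Z r 0 2 := by
    intro r
    rw [(hZ r).rel 0 1 1 2 n1.symm h21.symm (fun h => n2 h.2.symm), if_pos rfl,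
      if_neg n2.symm, sub_zero]
  -- the bracket of F_z and E_z
  have hFE : ⁅T.F z 0, T.E z 0⁆ = -(G.e z z - G.e 0 0) := by
    rw [← lie_skew, T.EF, if_pos rfl, add_zero, T.H0, z1, hGe, hGe]
  have hEF : ⁅T.E z 0, T.F z 0⁆ = G.e z z - G.e 0 0 := by
    rw [T.EF, if_pos rfl, add_zero, T.H0, z1, hGe, hGe]
  have hFE' : ∀ c, c ≠ z → ⁅T.F z 0, T.E c 0⁆ = 0 := by
    intro c hc
    rw [← lie_skew, T.EF, if_neg hc, neg_zero]
  have hFE'' : ∀ c, c ≠ z → ⁅T.F c 0, T.E z 0⁆ = 0 := by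
    intro c hc
    rw [← lie_skew, T.EF, if_neg hc.symm, neg_zero]
  have two_zero : ∀ X : Module.End ℂ V, X = -X → X = 0 := by
    intro X hX
    have h2 : (2 : ℂ) • X = 0 := by
      rw [two_smul]
      nth_rewrite 1 [hX]
      simp
    exact (smul_eq_zero.mp h2).resolve_left two_ne_zero
  -- W z 1
  have hWz1 : W z 1 = ⁅T.E z 0, T.E 0 0⁆ := by
    have := w01 W hW
    rw [g01, hW0] at this
    rw [← lie_skew, this, neg_neg]
  have hWy0 : W y 0 = ⁅T.E y 0, T.E z 0⁆ := by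
    rw [← wyz W hW, gyz, hW0]
  have hU1z : U 1 z = ⁅T.F 0 0, T.F z 0⁆ := by
    rw [← r10 U hU, g10, hU0]
  have hU0y : U 0 y = ⁅T.F z 0, T.F y 0⁆ := by
    have := rzy U hU
    rw [gzy, hU0] at this
    rw [← lie_skew, this, neg_neg]
  refine ⟨⟨?_, ?_, ?_, ?_, ?_, ?_⟩, ⟨?_, ?_⟩, ?_, ?_, ?_⟩
  · -- ZRel Z Z
    intro r s
    refine hZL _ _ G hcard _ _ (hZ r) (hZ s) 0 1 2 3 ?_ ?_
    · simp [n1.symm, n2.symm, n3.symm, h21.symm, h31.symm, h32.symm]
    · rw [z01, z23]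
      exact e4 0 2 r s n2 (by rw [zero_add]; exact h21) (by rw [zz]; exact hz2.symm)
  · -- ZRel Z U
    intro r
    refine hZL _ _ G hcard _ _ (hZ r) hU 1 2 0 z ?_ ?_
    · simp [n1, n2, hz0.symm, hz1.symm, hz2.symm, h21.symm]
    · rw [z12, hU0, T.EF, if_neg hz1.symm]
  · -- ZRel Z W
    intro r
    refine hZL _ _ G hcard _ _ (hZ r) hW 2 1 z 0 ?_ ?_
    · simp [n1, n2, hz0, hz1.symm, hz2.symm, h21]
    · rw [z21, hW0, ← lie_skew, T.EF, if_neg hz1, neg_zero]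
  · -- ZRel U U
    refine hZL _ _ G hcard _ _ hU hU 0 z 1 y ?_ ?_
    · simp [n1.symm, hz0.symm, hy0.symm, hz1, hyz.symm, hy1.symm]
    · have a1 : ⁅U 0 z, U 1 z⁆ = 0 := by
        rw [hU0, hU1z, ← lie_skew (T.F 0 0), lie_neg, f6 z 0 0 0 0 (Or.inl z1.symm), neg_zero]
      have a2 : ⁅U 0 z, U 0 y⁆ = 0 := by
        rw [hU0, hU0y, f6 z y 0 0 0 (Or.inr zy.symm)]
      have b1 : ⁅G.e z y, ⁅U 0 z, U 1 z⁆⁆ = 0 := by rw [a1, lie_zero]
      have b2 : ⁅G.e 1 0, ⁅U 0 z, U 0 y⁆⁆ = 0 := by rw [a2, lie_zero]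
      rw [leibniz_lie, rzy U hU, rzy1 U hU, neg_lie, lie_neg] at b1
      rw [leibniz_lie, r10 U hU, r10y U hU, ← lie_skew (U 1 z)] at b2
      apply two_zero
      have c1 : ⁅U 0 y, U 1 z⁆ = - ⁅U 0 z, U 1 y⁆ := by
        rw [← sub_eq_zero, ← neg_eq_zero]; rw [← b1]; abel
      rw [c1] at b2
      rw [neg_neg] at b2
      exact eq_neg_of_add_eq_zero_left b2
  · -- ZRel W W
    refine hZL _ _ G hcard _ _ hW hW z 0 y 1 ?_ ?_
    · simp [n1.symm, hz0, hy0.symm, hz1, hyz.symm, hy1]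
    · have a1 : ⁅W z 0, W z 1⁆ = 0 := by
        rw [hW0, hWz1, e6 z 0 0 0 0 (Or.inl z1.symm)]
      have a2 : ⁅W z 0, W y 0⁆ = 0 := by
        rw [hW0, hWy0, ← lie_skew (T.E y 0), lie_neg, e6 z y 0 0 0 (Or.inr zy.symm), neg_zero]
      have b1 : ⁅G.e y z, ⁅W z 0, W z 1⁆⁆ = 0 := by rw [a1, lie_zero]
      have b2 : ⁅G.e 0 1, ⁅W z 0, W y 0⁆⁆ = 0 := by rw [a2, lie_zero]
      rw [leibniz_lie, wyz W hW, wyz1 W hW] at b1
      rw [leibniz_lie, w01 W hW, w01y W hW, neg_lie, lie_neg, lie_skew (W y 0)] at b2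
      apply two_zero
      have c1 : ⁅W y 0, W z 1⁆ = - ⁅W z 0, W y 1⁆ := eq_neg_of_add_eq_zero_left b1
      rw [c1] at b2
      have c2 : -(⁅W z 0, W y 1⁆ + ⁅W z 0, W y 1⁆) = 0 := by rw [← b2]; abel
      exact eq_neg_of_add_eq_zero_left (neg_eq_zero.mp c2)
  · -- ZRel U W
    refine hZL _ _ G hcard _ _ hU hW 0 z y 1 ?_ ?_
    · simp [n1.symm, hz0.symm, hy0.symm, hz1, hyz.symm, hy1]
    · have hW1 : W y 1 = -⁅G.e 0 1, ⁅G.e y z, T.E z 0⁆⁆ := by
        rw [← hW0, wyz W hW, w01y W hW, neg_neg]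
      have k1 : ⁅T.F z 0, G.e y z⁆ = 0 := by rw [gyz]; exact hFE' y hyz
      have k2 : ⁅T.F z 0, G.e 0 1⁆ = 0 := by rw [g01]; exact hFE' 0 hz0.symm
      have k3 : ⁅G.e y z, G.e z z - G.e 0 0⁆ = G.e y z := by
        rw [lie_sub, G.gl, G.gl, if_pos rfl, if_neg hyz, if_neg hz0, if_neg hy0]
        simp
      have k4 : ⁅G.e 0 1, G.e y z⁆ = 0 := by
        rw [G.gl, if_neg hy1.symm, if_neg hz0.symm, sub_zero]
      rw [hU0, hW1, lie_neg, leibniz_lie, k2, zero_lie, zero_add, leibniz_lie (T.F z 0), k1,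
        zero_lie, zero_add, hFE, lie_neg, k3, lie_neg, k4]
      simp
  · -- U 0 z, W z 1
    have k2 : ⁅T.F z 0, T.E 0 0⁆ = 0 := hFE' 0 hz0.symm
    rw [hU0, hWz1, leibniz_lie, k2, lie_zero, add_zero, hFE, ← g01, neg_lie, sub_lie, G.gl, G.gl,
      if_neg hz0, if_neg hz1, if_pos rfl, if_neg n1.symm]
    simp
  · -- W z 0, U 0 1
    have hzv : (-1 : ZMod l).val = l - 1 := by
      have : ((l - 1 : ℕ) : ZMod l) = -1 := by
        rw [Nat.cast_sub (by omega)]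
        simp
      rw [← this, ZMod.val_natCast, Nat.mod_eq_of_lt (by omega)]
    have h1v : (1 : ZMod l).val = 1 := by
      rw [ZMod.val_one_eq_one_mod, Nat.mod_eq_of_lt (by omega)]
    have k5 : ⁅G.e z 1, T.E z 0⁆ = 0 := by
      refine (hGEN l V T (by omega) G hG (T.E z 0) z 1).2 ?_ ?_
      · rw [hz, hzv, h1v]; omega
      · intro c _ hc
        refine hFE'' c ?_
        rintro rfl
        exact lt_irrefl _ hc
    have hU1 : U 0 1 = ⁅T.F z 0, G.e z 1⁆ := by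
      rw [← lie_skew, ← hU0, uz1, neg_neg]
    rw [hW0, hU1, leibniz_lie, hEF, ← lie_skew (T.E z 0), k5, neg_zero, lie_zero, add_zero,
      sub_lie, G.gl, G.gl, if_pos rfl, if_neg hz1, if_neg hz0.symm, if_neg n1.symm]
    simp
  · intro r s
    rw [z01, z12, e5 0 1 r s (Or.inl (by rw [zero_add])), ← zr12, z12, g01]
  · intro r P hP hP0
    rw [zy]
    constructor
    · rw [← r10 P hP, g10, hP0, z10, hU0, f5 0 z r 0 (Or.inr zz.symm), add_zero]
    · have := rzy P hP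
      rw [gzy, hP0] at this
      have h1 : P 0 y = ⁅T.F z r, T.F y 0⁆ := by rw [← lie_skew, this, neg_neg]
      rw [zzy, hU0, h1, f5 z y r 0 (Or.inr zy.symm), add_zero]
  · intro r Q hQ hQ0
    rw [zy]
    constructor
    · rw [← wyz Q hQ, gyz, hQ0, zyz, hW0, e5 y z r 0 (Or.inl y1.symm), add_zero]
    · have := w01 Q hQ
      rw [g01, hQ0] at this
      have h1 : Q z 1 = ⁅T.E z r, T.E 0 0⁆ := by rw [← lie_skew, this, neg_neg]
      rw [z01, hW0, h1, e5 z 0 r 0 (Or.inl z1.symm), add_zero]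

end

end Pool.Agent.Helper39.SQ
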