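import Pool.Agent.Helper6.SQ.TRA
import Pool.Agent.Helper4.SQ.GoalsR2

/-!
# Packet SQR-ZUL (MP_bb32d1_al): `l dim Z(u_q(sl_n)) <= dim Z(u_q(gl_n))`
-/

set_option autoImplicit false

namespace Pool.Agent.Helper39.SQ

open Pool.Agent.Helper19.SQ Pool.Agent.Helper6.SQ

noncomputable section

variable {N l : ℕ} {q : ℂ}

/-- the twisted family. -/
def kz (N l : ℕ) (q : ℂ) (n' : ℕ) (ζ : ℂ) (j : ℕ) : Usl N l q :=
  if j ≤ N then ζ • kap N l q n' j else 1

theorem kz_le {n' : ℕ} {ζ : ℂ} {j : ℕ} (h : j ≤ N) : kz N l q n' ζ j = ζ • kap N l q n' j :=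
  if_pos h

theorem kz_gt {n' : ℕ} {ζ : ℂ} {j : ℕ} (h : ¬ j ≤ N) : kz N l q n' ζ j = 1 := if_neg h

theorem zz_mul (hl : l ≠ 0) {ζ : ℂ} (hζ : ζ ^ l = 1) : ζ * ζ ^ (l - 1) = 1 := by
  rw [← pow_succ', Nat.sub_add_cancel (Nat.one_le_iff_ne_zero.mpr hl), hζ]

theorem kz_mul (hl : l ≠ 0) {n' : ℕ} {ζ : ℂ} (hζ : ζ ^ l = 1) {i j : ℕ} (hi : i ≤ N)
    (hj : j ≤ N) : kz N l q n' ζ i * kz N l q n' ζ j ^ (l - 1)
      = kap N l q n' i * kap N l q n' j ^ (l - 1) := by
  rw [kz_le hi, kz_le hj, smul_pow, smul_mul_smul_comm, zz_mul hl hζ, one_smul]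

theorem kz_mul' (hl : l ≠ 0) {n' : ℕ} {ζ : ℂ} (hζ : ζ ^ l = 1) {i j : ℕ} (hi : i ≤ N)
    (hj : j ≤ N) : kz N l q n' ζ i ^ (l - 1) * kz N l q n' ζ j
      = kap N l q n' i ^ (l - 1) * kap N l q n' j := by
  rw [kz_le hi, kz_le hj, smul_pow, smul_mul_smul_comm, mul_comm, zz_mul hl hζ, one_smul]

theorem kz_rel (hl : l ≠ 0) {n' : ℕ}
    (hrel : GlRel N l q (ext0 (uE N l q)) (ext0 (uF N l q)) (kap N l q n')) {ζ : ℂ}
    (hζ : ζ ^ l = 1) :
    GlRel N l q (ext0 (uE N l q)) (ext0 (uF N l q)) (kz N l q n' ζ) where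
  E_out := hrel.E_out
  F_out := hrel.F_out
  K_out j hj := kz_gt (by omega)
  K_comm i j := by
    by_cases hi : i ≤ N
    · by_cases hj : j ≤ N
      · rw [kz_le hi, kz_le hj, smul_mul_smul_comm, smul_mul_smul_comm, hrel.K_comm]
      · rw [kz_gt hj, one_mul, mul_one]
    · rw [kz_gt hi, one_mul, mul_one]
  K_pow j := by
    by_cases hj : j ≤ N
    · rw [kz_le hj, smul_pow, hζ, one_smul, hrel.K_pow]
    · rw [kz_gt hj, one_pow]
  KE j i := by
    by_cases hj : j ≤ N
    · rw [kz_le hj, smul_mul_assoc, hrel.KE, mul_smul_comm, smul_comm]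
    · have h := hrel.KE j i
      rw [hrel.K_out j (by omega)] at h
      rw [kz_gt hj]; exact h
  KF j i := by
    by_cases hj : j ≤ N
    · rw [kz_le hj, smul_mul_assoc, hrel.KF, mul_smul_comm, smul_comm]
    · have h := hrel.KF j i
      rw [hrel.K_out j (by omega)] at h
      rw [kz_gt hj]; exact h
  EF i hi := by
    rw [kz_mul hl hζ (by omega) (by omega), kz_mul' hl hζ (by omega) (by omega)]
    exact hrel.EF i hi
  EF_ne := hrel.EF_ne
  sE := hrel.sE
  sF := hrel.sF
  pE := hrel.pE
  pF := hrel.pF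

/-- `iota z` is central. -/
theorem iota_central (hIota : S_IOTA) (hP : Par N l q) (hl : l ≠ 0)
    (hco : Nat.Coprime (N + 1) l) (z : Usl N l q)
    (hz : z ∈ Subalgebra.center ℂ (Usl N l q)) (a : A N l q) :
    Commute a (liftU (hIota N l q hP) z) := by
  have hl3 := hP.h3
  have hq : q ≠ 0 := hP.prim.ne_zero hl
  obtain ⟨n', -, hn'⟩ := Nat.exists_mul_mod_eq_one_of_coprime hco (by omega)
  set ι : Usl N l q →ₐ[ℂ] A N l q := liftU (hIota N l q hP) with hι
  have hιE : ∀ i : Fin N, ι (uE N l q i) = gE N l q i := fun i => liftU_E _ i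
  have hιF : ∀ i : Fin N, ι (uF N l q i) = gF N l q i := fun i => liftU_F _ i
  have hιK : ∀ i : Fin N, ι (uK N l q i) = gK N l q i * gK N l q (i + 1) ^ (l - 1) :=
    fun i => liftU_K _ i
  set w := ι z with hw
  have hzc : ∀ y : Usl N l q, Commute (ι y) w := by
    intro y
    have := (Subalgebra.mem_center_iff.mp hz) y
    change ι y * ι z = ι z * ι y
    rw [← map_mul, ← map_mul, this]
  have hstep : ∀ i, i < N → Commute (kk N l q i (i + 1)) w := by
    intro i hi
    have := hzc (uK N l q ⟨i, hi⟩)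
    rw [hιK] at this
    exact this
  have hstep' : ∀ i, i < N → Commute (kk N l q (i + 1) i) w := by
    intro i hi
    rw [← kk_inv (by omega) i (i + 1)]
    exact (hstep i hi).pow_left _
  have h0 : ∀ i, i ≤ N → Commute (kk N l q i 0) w := by
    intro i
    induction i with
    | zero => intro _; rw [kk_self hl]; exact Commute.one_left _
    | succ i ih =>
      intro hi
      rw [← kk_mul hl (i + 1) i 0]
      exact (hstep' i (by omega)).mul_left (ih (by omega))
  have h0' : ∀ i, i ≤ N → Commute (kk N l q 0 i) w := by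
    intro i
    induction i with
    | zero => intro _; rw [kk_self hl]; exact Commute.one_left _
    | succ i ih =>
      intro hi
      rw [← kk_mul hl 0 i (i + 1)]
      exact (ih (by omega)).mul_left (hstep i (by omega))
  have hkk : ∀ j i, j ≤ N → i ≤ N → Commute (kk N l q j i) w := by
    intro j i hj hi
    rw [← kk_mul hl j 0 i]
    exact (h0 j hj).mul_left (h0' i hi)
  have hK : ∀ j, Commute (gK N l q j) w := by
    intro j
    by_cases hj : j ≤ N
    · have h1 : Commute (gK N l q j ^ (N + 1)) w := by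
        rw [← prod_kk hl j (N + 1)]
        apply Commute.mul_left
        · apply Commute.list_prod_left
          intro x hx
          rw [List.mem_map] at hx
          obtain ⟨i, hi, rfl⟩ := hx
          rw [List.mem_range] at hi
          exact hkk j i hj (by omega)
        · exact pK_central hq w
      have h2 : gK N l q j = (gK N l q j ^ (N + 1)) ^ n' := by
        rw [← pow_mul]
        have h3 : (N + 1) * n' = l * ((N + 1) * n' / l) + 1 := by
          have := Nat.div_add_mod ((N + 1) * n') l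
          rw [hn'] at this
          exact this.symm
        rw [h3, pow_add, pow_mul, (glA N l q).K_pow, one_pow, one_mul, pow_one]
      rw [h2]
      exact h1.pow_left _
    · rw [(glA N l q).K_out j (by omega)]; exact Commute.one_left _
  refine A_induction (P := fun a => Commute a w) ?_ ?_ ?_ hK ?_ ?_ a
  · intro c; exact Algebra.commutes' c _
  · intro i
    by_cases hi : i < N
    · have := hzc (uE N l q ⟨i, hi⟩)
      rw [hιE] at this; exact this
    · rw [(glA N l q).E_out i (by omega)]; exact Commute.zero_left _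
  · intro i
    by_cases hi : i < N
    · have := hzc (uF N l q ⟨i, hi⟩)
      rw [hιF] at this; exact this
    · rw [(glA N l q).F_out i (by omega)]; exact Commute.zero_left _
  · intro a b ha hb; exact ha.add_left hb
  · intro a b ha hb; exact ha.mul_left hb

theorem pK_pow (m : ℕ) : pK N l q m ^ l = 1 := by
  induction m with
  | zero => rw [pK_zero, one_pow]
  | succ m ih => rw [pK_succ, (pK_commute_K m m).mul_pow, ih, (glA N l q).K_pow, one_mul]

theorem sZUL (hIota : S_IOTA) (hPi : S_PI) : Pool.Agent.Helper4.SQ.S_ZUL := by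
  intro N l _ q hP hco hfin
  have hl : l ≠ 0 := NeZero.ne l
  have hl3 := hP.h3
  have hq : q ≠ 0 := hP.prim.ne_zero hl
  obtain ⟨n', -, hn'⟩ := Nat.exists_mul_mod_eq_one_of_coprime hco (by omega)
  have hn2 : (n' * (N + 1)) % l = 1 := by rw [mul_comm]; exact hn'
  obtain ⟨hrel, hkap⟩ := hPi N l q hP n' hn2
  set ι : Usl N l q →ₐ[ℂ] A N l q := liftU (hIota N l q hP) with hι
  have hιE : ∀ i : Fin N, ι (uE N l q i) = gE N l q i := fun i => liftU_E _ i
  have hιF : ∀ i : Fin N, ι (uF N l q i) = gF N l q i := fun i => liftU_F _ i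
  have hιK : ∀ i : Fin N, ι (uK N l q i) = gK N l q i * gK N l q (i + 1) ^ (l - 1) :=
    fun i => liftU_K _ i
  have hleft : ∀ (ζ : ℂ) (hζ : ζ ^ l = 1) (x : Usl N l q),
      liftA (kz_rel hl hrel hζ) (ι x) = x := by
    intro ζ hζ x
    refine U_induction (P := fun x => liftA (kz_rel hl hrel hζ) (ι x) = x) ?_ ?_ ?_ ?_ ?_ ?_ x
    · intro c; simp
    · intro i; rw [hιE, liftA_E]; simp [ext0, i.2]
    · intro i; rw [hιF, liftA_F]; simp [ext0, i.2]
    · intro i
      rw [hιK, map_mul, map_pow, liftA_K, liftA_K, kz_mul hl hζ (by omega) (by omega)]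
      exact hkap i
    · intro a b ha hb; rw [map_add, map_add, ha, hb]
    · intro a b ha hb; rw [map_mul, map_mul, ha, hb]
  have hinj : Function.Injective ι :=
    Function.LeftInverse.injective (hleft 1 (one_pow l))
  have : FiniteDimensional ℂ (Usl N l q) :=
    FiniteDimensional.of_injective ι.toLinearMap hinj
  set c := pK N l q (N + 1) with hc
  set P : Usl N l q := liftA hrel c with hPdef
  have hPl : P ^ l = 1 := by rw [hPdef, ← map_pow, hc, pK_pow, map_one]
  have hpi : ∀ (ζ : ℂ) (hζ : ζ ^ l = 1) (m : ℕ), m ≤ N + 1 →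
      liftA (kz_rel hl hrel hζ) (pK N l q m) = ζ ^ m • liftA hrel (pK N l q m) := by
    intro ζ hζ m
    induction m with
    | zero => intro _; simp [pK_zero]
    | succ m ih =>
      intro hm
      rw [pK_succ, map_mul, map_mul, ih (by omega), liftA_K, liftA_K, kz_le (by omega),
        smul_mul_smul_comm, pow_succ]
  -- the linear map
  let Φ : (Fin l → Subalgebra.center ℂ (Usl N l q)) →ₗ[ℂ] Subalgebra.center ℂ (A N l q) :=
    { toFun := fun z => ⟨∑ i, ι (z i) * c ^ (i : ℕ), by
        refine Subalgebra.sum_mem _ fun i _ => Subalgebra.mul_mem _ ?_ ?_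
        · exact Subalgebra.mem_center_iff.2 fun b =>
            (iota_central hIota hP hl hco (z i) (z i).2 b).eq
        · exact Subalgebra.pow_mem _ (Subalgebra.mem_center_iff.2 fun b =>
            (pK_central hq b).eq.symm) _⟩
      map_add' := by
        intro x y
        apply Subtype.ext
        simp [add_mul, Finset.sum_add_distrib]
      map_smul' := by
        intro t x
        apply Subtype.ext
        simp [Finset.smul_sum] }
  have hΦ : Function.Injective Φ := by
    rw [← LinearMap.ker_eq_bot, LinearMap.ker_eq_bot']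
    intro z hz
    have hz' : ∑ i, ι (z i) * c ^ (i : ℕ) = 0 := congrArg Subtype.val hz
    have h1 : ∀ (ζ : ℂ), ζ ^ l = 1 →
        ∑ i : Fin l, (ζ ^ (N + 1)) ^ (i : ℕ) • ((z i : Usl N l q) * P ^ (i : ℕ)) = 0 := by
      intro ζ hζ
      have h2 := congrArg (liftA (kz_rel hl hrel hζ)) hz'
      rw [map_sum, map_zero] at h2
      rw [← h2]
      refine Finset.sum_congr rfl fun i _ => ?_
      rw [map_mul, hleft ζ hζ, map_pow, hc, hpi ζ hζ (N + 1) le_rfl, smul_pow, mul_smul_comm]
    have hprim : IsPrimitiveRoot (q ^ (N + 1)) l := hP.prim.pow_of_coprime (N + 1) hco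
    have h3 : ∀ i : Fin l, (z i : Usl N l q) * P ^ (i : ℕ) = 0 := by
      intro i
      rw [← Module.forall_dual_apply_eq_zero_iff ℂ]
      intro f
      have h4 := Matrix.eq_zero_of_forall_index_sum_pow_mul_eq_zero
        (f := fun j : Fin l => (q ^ (N + 1)) ^ (j : ℕ))
        (v := fun i : Fin l => f ((z i : Usl N l q) * P ^ (i : ℕ))) ?_ ?_
      · exact congrFun h4 i
      · intro a b hab
        exact Fin.ext (hprim.pow_inj a.2 b.2 hab)
      · intro j
        have h5 := h1 (q ^ (j : ℕ)) (by rw [← pow_mul, mul_comm, pow_mul, hP.prim.pow_eq_one,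
          one_pow])
        have h6 := congrArg f h5
        rw [map_sum, map_zero] at h6
        rw [← h6]
        refine Finset.sum_congr rfl fun i _ => ?_
        rw [map_smul, smul_eq_mul]
        congr 2
        rw [← pow_mul, ← pow_mul, mul_comm]
    funext i
    apply Subtype.ext
    have h4 := h3 i
    have h5 : P ^ (i : ℕ) * P ^ (l - (i : ℕ)) = 1 := by
      rw [← pow_add, Nat.add_sub_cancel' i.2.le, hPl]
    calc (z i : Usl N l q) = z i * (P ^ (i : ℕ) * P ^ (l - (i : ℕ))) := by rw [h5, mul_one]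
      _ = (z i * P ^ (i : ℕ)) * P ^ (l - (i : ℕ)) := by rw [mul_assoc]
      _ = 0 := by rw [h4, zero_mul]
  have h := LinearMap.finrank_le_finrank_of_injective hΦ
  rwa [Module.finrank_pi_fintype, Finset.sum_const, Finset.card_univ, Fintype.card_fin,
    smul_eq_mul] at h

end

end Pool.Agent.Helper39.SQ
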